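import Mathlib

set_option linter.all false

/-!
# Flag-transitive point-imprimitive symmetric designs and the product construction

Definitions for problem MP_14f8d9_co.  A design is given by an incidence relation
`I : P → B → Prop` between a type `P` of points and a type `B` of blocks;
`I p b` is read: the point `p` lies on the block `b`.
-/

namespace Pool.Agent.Designs

/-- `IsTwoDesign I v k l`: the incidence relation `I` is a 2-(v,k,l) design.  There are finitely many
points and blocks, exactly `v` points, every block consists of exactly `k` points, and any two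
distinct points lie together on exactly `l` blocks. (Different elements of `B` may have the same
point set, so repeated blocks are allowed here.) -/
structure IsTwoDesign {P B : Type} (I : P → B → Prop) (v k l : ℕ) : Prop where
  finite_points : Finite P
  finite_blocks : Finite B
  card_points : Nat.card P = v
  card_block : ∀ b : B, {p : P | I p b}.ncard = k
  card_pair : ∀ p q : P, p ≠ q → {b : B | I p b ∧ I q b}.ncard = l

/-- `IsSymmetricTwoDesign I v k l`: a 2-(v,k,l) design with exactly `v` blocks. -/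
structure IsSymmetricTwoDesign {P B : Type} (I : P → B → Prop) (v k l : ℕ) : Prop where
  isTwoDesign : IsTwoDesign I v k l
  card_blocks : Nat.card B = v

/-- No two different blocks have the same point set. -/
def IsSimple {P B : Type} (I : P → B → Prop) : Prop :=
  Function.Injective fun b : B => {p : P | I p b}

/-- The permutation `g` of the points maps the block `b` onto the block `b'`. -/
def MapsBlock {P B : Type} (I : P → B → Prop) (g : Equiv.Perm P) (b b' : B) : Prop :=
  ∀ p : P, I p b ↔ I (g p) b'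

/-- `G` is a group of automorphisms of the design: every element maps every block onto a block. -/
def IsAutomorphismGroup {P B : Type} (I : P → B → Prop) (G : Subgroup (Equiv.Perm P)) : Prop :=
  ∀ g ∈ G, ∀ b : B, ∃ b' : B, MapsBlock I g b b'

/-- `G` is transitive on incident point-block pairs (flags). -/
def IsFlagTransitive {P B : Type} (I : P → B → Prop) (G : Subgroup (Equiv.Perm P)) : Prop :=
  ∀ (p p' : P) (b b' : B), I p b → I p' b' → ∃ g ∈ G, g p = p' ∧ MapsBlock I g b b'

/-- `G` is point-imprimitive: it preserves a partition of the points (given as an equivalence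
relation `s`) that is neither the partition into singletons nor the one-part partition. -/
def IsPointImprimitive {P : Type} (G : Subgroup (Equiv.Perm P)) : Prop :=
  ∃ s : Setoid P, (∃ x y, x ≠ y ∧ s x y) ∧ (∃ x y, ¬ s x y) ∧
    ∀ g ∈ G, ∀ x y, s x y → s (g x) (g y)

/-- The input of the construction: a resolvable design `D₀` with its parallel classes, a symmetric
design `D₁` with the bijections `ψ`, and a transversal design `D₂`. -/
structure ConstructionInput where
  /-- points of `D₀` -/
  Pt₀ : Type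
  /-- blocks of `D₀`, which are also the points of `D₂` -/
  Bl₀ : Type
  /-- the set of parallel classes of `D₀` -/
  Cls : Type
  /-- points of `D₁` -/
  Pt₁ : Type
  /-- blocks of `D₁` -/
  Bl₁ : Type
  /-- blocks of `D₂` -/
  Bl₂ : Type
  (v₀ k₀ l₀ s r v₁ l₁ k₂ l₂ : ℕ)
  /-- incidence of `D₀` -/
  I₀ : Pt₀ → Bl₀ → Prop
  /-- (i) `D₀` is a 2-(v₀,k₀,l₀) design -/
  design₀ : IsTwoDesign I₀ v₀ k₀ l₀
  /-- the parallel class containing a given block of `D₀` -/
  cls : Bl₀ → Cls
  finite_cls : Finite Cls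
  /-- there are `r` parallel classes -/
  card_cls : Nat.card Cls = r
  /-- each parallel class consists of `s` blocks -/
  card_class : ∀ c, {ℓ | cls ℓ = c}.ncard = s
  /-- the blocks of a parallel class partition the points of `D₀` -/
  resolution : ∀ (c : Cls) (x : Pt₀), ∃! ℓ, cls ℓ = c ∧ I₀ x ℓ
  /-- incidence of `D₁` -/
  I₁ : Pt₁ → Bl₁ → Prop
  /-- (ii) `D₁` is a symmetric 2-(v₁,r,l₁) design -/
  design₁ : IsSymmetricTwoDesign I₁ v₁ r l₁
  /-- the bijections `ψ β` from the set of parallel classes onto the point set of `β` -/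
  ψ : Bl₁ → Cls → Pt₁
  ψ_injective : ∀ β, Function.Injective (ψ β)
  ψ_range : ∀ β, Set.range (ψ β) = {i | I₁ i β}
  /-- for every parallel class `c` and point `i`, exactly one `β` has `ψ β c = i` -/
  ψ_unique : ∀ (c : Cls) (i : Pt₁), ∃! β, ψ β c = i
  /-- incidence of `D₂`; its points are the blocks of `D₀` -/
  I₂ : Bl₀ → Bl₂ → Prop
  finite_blocks₂ : Finite Bl₂
  /-- (iii) each block of `D₂` has size `k₂ ≤ r` -/
  card_block₂ : ∀ γ, {ℓ | I₂ ℓ γ}.ncard = k₂
  k₂_le : k₂ ≤ r
  /-- each block of `D₂` meets each parallel class in at most one element -/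
  transversal : ∀ γ ℓ ℓ', I₂ ℓ γ → I₂ ℓ' γ → cls ℓ = cls ℓ' → ℓ = ℓ'
  /-- two elements of different parallel classes lie in exactly `l₂` blocks of `D₂` -/
  card_pair₂ : ∀ ℓ ℓ', cls ℓ ≠ cls ℓ' → {γ | I₂ ℓ γ ∧ I₂ ℓ' γ}.ncard = l₂

/-- The output of the construction.  Its points are the pairs `(x, j)` of a point of `D₀` and a point
of `D₁`; its blocks are indexed by pairs `(β, γ)` of a block of `D₁` and a block of `D₂`.  The point
`(x, j)` lies on the block `(β, γ)` exactly when `j` is in `β` and `x` lies on the block `ℓ` of `D₀`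
that belongs to `γ` and to the parallel class that `ψ β` sends to `j`. -/
def ConstructionInput.out (D : ConstructionInput) (p : D.Pt₀ × D.Pt₁) (b : D.Bl₁ × D.Bl₂) : Prop :=
  ∃ ℓ, D.I₂ ℓ b.2 ∧ D.ψ b.1 (D.cls ℓ) = p.2 ∧ D.I₀ p.1 ℓ

/-- The design `I` arises from the construction: for some input with `v₀ ≥ 2` and `v₁ ≥ 2` there is a
bijection `e` between the point sets which carries the set of blocks of `I` onto the set of blocks
of the output. -/
def ArisesFromConstruction {P B : Type} (I : P → B → Prop) : Prop :=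
  ∃ D : ConstructionInput, 2 ≤ D.v₀ ∧ 2 ≤ D.v₁ ∧ ∃ e : P ≃ D.Pt₀ × D.Pt₁,
    (∀ b : B, ∃ c : D.Bl₁ × D.Bl₂, ∀ p, I p b ↔ D.out (e p) c) ∧
    (∀ c : D.Bl₁ × D.Bl₂, ∃ b : B, ∀ p, I p b ↔ D.out (e p) c)

namespace ConstructionInput

variable (D : ConstructionInput)

/-- Each block of the output has `k₀ * k₂` points. -/
theorem ncard_out (c : D.Bl₁ × D.Bl₂) : {p | D.out p c}.ncard = D.k₀ * D.k₂ := by
  classical
  have := D.design₀.finite_points
  have := D.design₀.finite_blocks
  have := D.design₁.isTwoDesign.finite_points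
  have := Fintype.ofFinite D.Pt₀
  have := Fintype.ofFinite D.Bl₀
  have := Fintype.ofFinite D.Pt₁
  -- the blocks of D₀ in γ
  set T : Finset D.Bl₀ := Finset.univ.filter (fun ℓ => D.I₂ ℓ c.2) with hT
  have hTcard : T.card = D.k₂ := by
    rw [← D.card_block₂ c.2, ← Set.ncard_coe_finset]
    congr 1; ext ℓ; simp [hT]
  have hset : {p | D.out p c} =
      ((T.biUnion fun ℓ => (Finset.univ.filter fun x => D.I₀ x ℓ).image
        fun x => (x, D.ψ c.1 (D.cls ℓ)) : Finset _) : Set _) := by
    ext ⟨x, j⟩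
    simp only [Set.mem_setOf_eq, Finset.coe_biUnion, Set.mem_iUnion, Finset.mem_coe,
      Finset.mem_image, Finset.mem_filter, Finset.mem_univ, true_and, hT, ConstructionInput.out]
    constructor
    · rintro ⟨ℓ, h1, h2, h3⟩
      exact ⟨ℓ, h1, x, h3, by rw [h2]⟩
    · rintro ⟨ℓ, h1, y, h3, h4⟩
      rw [Prod.mk.injEq] at h4
      obtain ⟨rfl, rfl⟩ := h4
      exact ⟨ℓ, h1, rfl, h3⟩
  rw [hset, Set.ncard_coe_finset, Finset.card_biUnion]
  · have : ∀ ℓ ∈ T, ((Finset.univ.filter fun x => D.I₀ x ℓ).image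
        fun x => (x, D.ψ c.1 (D.cls ℓ))).card = D.k₀ := by
      intro ℓ _
      rw [Finset.card_image_of_injective _ (fun x y h => (Prod.mk.inj h).1),
        ← D.design₀.card_block ℓ, ← Set.ncard_coe_finset]
      congr 1; ext x; simp
    rw [Finset.sum_congr rfl this, Finset.sum_const, hTcard, smul_eq_mul, mul_comm]
  · intro ℓ hℓ ℓ' hℓ' hne
    rw [Function.onFun, Finset.disjoint_left]
    intro p hp hp'
    simp only [Finset.mem_image, Finset.mem_filter, Finset.mem_univ, true_and] at hp hp'
    obtain ⟨x, _, rfl⟩ := hp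
    obtain ⟨y, _, hy⟩ := hp'
    rw [Prod.mk.injEq] at hy
    have h1 := D.ψ_injective c.1 hy.2
    simp only [hT, Finset.coe_filter, Finset.mem_univ, true_and, Set.mem_setOf_eq,
      Finset.mem_filter] at hℓ hℓ'
    exact hne (D.transversal c.2 ℓ ℓ' hℓ hℓ' h1.symm)

/-- A parallel class of `s` blocks of size `k₀` partitions the `v₀` points. -/
theorem v₀_eq (c : D.Cls) : D.v₀ = D.s * D.k₀ := by
  classical
  have := D.design₀.finite_points
  have := D.design₀.finite_blocks
  have := Fintype.ofFinite D.Pt₀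
  have := Fintype.ofFinite D.Bl₀
  set T : Finset D.Bl₀ := Finset.univ.filter (fun ℓ => D.cls ℓ = c) with hT
  have hTcard : T.card = D.s := by
    rw [← D.card_class c, ← Set.ncard_coe_finset]
    congr 1; ext ℓ; simp [hT]
  have huniv : (Finset.univ : Finset D.Pt₀) =
      T.biUnion fun ℓ => Finset.univ.filter fun x => D.I₀ x ℓ := by
    ext x
    simp only [Finset.mem_univ, Finset.mem_biUnion, Finset.mem_filter, true_and, hT, true_iff]
    obtain ⟨ℓ, h, _⟩ := D.resolution c x
    exact ⟨ℓ, h.1, h.2⟩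
  have hc : Nat.card D.Pt₀ = (Finset.univ : Finset D.Pt₀).card := by
    rw [Nat.card_eq_fintype_card, Finset.card_univ]
  rw [← D.design₀.card_points, hc, huniv, Finset.card_biUnion]
  · have : ∀ ℓ ∈ T, (Finset.univ.filter fun x => D.I₀ x ℓ).card = D.k₀ := by
      intro ℓ _
      rw [← D.design₀.card_block ℓ, ← Set.ncard_coe_finset]
      congr 1; ext x; simp
    rw [Finset.sum_congr rfl this, Finset.sum_const, hTcard, smul_eq_mul]
  · intro ℓ hℓ ℓ' hℓ' hne
    rw [Function.onFun, Finset.disjoint_left]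
    intro x hx hx'
    simp only [Finset.mem_filter, Finset.mem_univ, true_and] at hx hx'
    simp only [hT, Finset.coe_filter, Finset.mem_univ, true_and, Set.mem_setOf_eq,
      Finset.mem_filter] at hℓ hℓ'
    exact hne ((D.resolution c x).unique ⟨hℓ, hx⟩ ⟨hℓ', hx'⟩)

/-- The number `r` of parallel classes is at most `v₁`, since the blocks of `D₁` have `r` points. -/
theorem r_le (h : 1 ≤ D.v₁) : D.r ≤ D.v₁ := by
  have := D.design₁.isTwoDesign.finite_points
  have := D.design₁.isTwoDesign.finite_blocks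
  have hne : Nonempty D.Bl₁ := by
    have := D.design₁.card_blocks
    by_contra hemp
    rw [not_nonempty_iff] at hemp
    rw [Nat.card_of_isEmpty] at this
    omega
  obtain ⟨β⟩ := hne
  rw [← D.design₁.isTwoDesign.card_block β, ← D.design₁.isTwoDesign.card_points]
  exact Set.ncard_le_card _

/-- Counting incident pairs: `r (k₀ - 1) = l₀ (v₀ - 1)`. -/
theorem r_mul (x : D.Pt₀) : D.r * (D.k₀ - 1) = D.l₀ * (D.v₀ - 1) := by
  classical
  have := D.design₀.finite_points
  have := D.design₀.finite_blocks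
  have := D.finite_cls
  have := Fintype.ofFinite D.Pt₀
  have := Fintype.ofFinite D.Bl₀
  have := Fintype.ofFinite D.Cls
  set A : Finset D.Bl₀ := Finset.univ.filter (fun ℓ => D.I₀ x ℓ) with hA
  have hAcard : A.card = D.r := by
    rw [← D.card_cls, Nat.card_eq_fintype_card, ← Finset.card_univ]
    apply Finset.card_bij (fun ℓ _ => D.cls ℓ)
    · intro _ _; exact Finset.mem_univ _
    · intro ℓ hℓ ℓ' hℓ' h
      simp only [hA, Finset.mem_filter, Finset.mem_univ, true_and] at hℓ hℓ'
      exact (D.resolution (D.cls ℓ') x).unique ⟨h, hℓ⟩ ⟨rfl, hℓ'⟩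
    · intro c _
      obtain ⟨ℓ, h, _⟩ := D.resolution c x
      exact ⟨ℓ, by simp [hA, h.2], h.1⟩
  have key := Finset.sum_card_bipartiteAbove_eq_sum_card_bipartiteBelow
    (s := A) (t := (Finset.univ : Finset D.Pt₀).erase x) (fun ℓ y => D.I₀ y ℓ)
  have h1 : ∀ ℓ ∈ A, (((Finset.univ : Finset D.Pt₀).erase x).bipartiteAbove
      (fun ℓ y => D.I₀ y ℓ) ℓ).card = D.k₀ - 1 := by
    intro ℓ hℓ
    simp only [hA, Finset.mem_filter, Finset.mem_univ, true_and] at hℓ
    have : ((Finset.univ : Finset D.Pt₀).erase x).bipartiteAbove (fun ℓ y => D.I₀ y ℓ) ℓ =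
        (Finset.univ.filter fun y => D.I₀ y ℓ).erase x := by
      ext y
      simp [Finset.bipartiteAbove]
    rw [this, Finset.card_erase_of_mem (by simp [hℓ]), ← D.design₀.card_block ℓ,
      ← Set.ncard_coe_finset]
    congr 2; ext y; simp
  have h2 : ∀ y ∈ (Finset.univ : Finset D.Pt₀).erase x, (A.bipartiteBelow
      (fun ℓ y => D.I₀ y ℓ) y).card = D.l₀ := by
    intro y hy
    have hne : x ≠ y := (Finset.ne_of_mem_erase hy).symm
    rw [← D.design₀.card_pair x y hne, ← Set.ncard_coe_finset]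
    congr 1; ext ℓ; simp [Finset.bipartiteBelow, hA]
  rw [Finset.sum_congr rfl h1, Finset.sum_congr rfl h2, Finset.sum_const, Finset.sum_const,
    hAcard, Finset.card_erase_of_mem (Finset.mem_univ x), Finset.card_univ,
    ← Nat.card_eq_fintype_card, D.design₀.card_points, smul_eq_mul, smul_eq_mul] at key
  rw [key, mul_comm]

/-- If `k₂ = r`, then each block of `D₂` meets every parallel class. -/
theorem meets_all (h : D.k₂ = D.r) (γ : D.Bl₂) (a : D.Cls) : ∃ ℓ, D.I₂ ℓ γ ∧ D.cls ℓ = a := by
  classical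
  have := D.design₀.finite_blocks
  have := D.finite_cls
  have := Fintype.ofFinite D.Bl₀
  have := Fintype.ofFinite D.Cls
  set T : Finset D.Bl₀ := Finset.univ.filter (fun ℓ => D.I₂ ℓ γ) with hT
  have hTcard : T.card = D.k₂ := by
    rw [← D.card_block₂ γ, ← Set.ncard_coe_finset]
    congr 1; ext ℓ; simp [hT]
  have himg : (T.image D.cls).card = Fintype.card D.Cls := by
    rw [Finset.card_image_of_injOn, hTcard, h, ← D.card_cls, Nat.card_eq_fintype_card]
    intro ℓ hℓ ℓ' hℓ' hh
    simp only [hT, Finset.coe_filter, Finset.mem_univ, true_and, Set.mem_setOf_eq] at hℓ hℓ'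
    exact D.transversal γ ℓ ℓ' hℓ hℓ' hh
  rw [Finset.card_eq_iff_eq_univ] at himg
  have : a ∈ T.image D.cls := by rw [himg]; exact Finset.mem_univ a
  obtain ⟨ℓ, hℓ, h'⟩ := Finset.mem_image.1 this
  simp only [hT, Finset.mem_filter, Finset.mem_univ, true_and] at hℓ
  exact ⟨ℓ, hℓ, h'⟩

/-- Each point of `D₁` is in the image of `ψ β` for exactly `r` blocks `β`. -/
theorem ncard_containing (j : D.Pt₁) : {β | j ∈ Set.range (D.ψ β)}.ncard = D.r := by
  classical
  choose f hf huniq using fun c => D.ψ_unique c j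
  have hinj : Function.Injective f := by
    intro a a' h
    have h1 := hf a
    have h2 := hf a'
    simp only [] at h1 h2
    rw [h] at h1
    exact D.ψ_injective (f a') (h1.trans h2.symm)
  have hset : {β | j ∈ Set.range (D.ψ β)} = Set.range f := by
    ext β
    constructor
    · rintro ⟨a, ha⟩
      exact ⟨a, (huniq a β ha).symm⟩
    · rintro ⟨a, rfl⟩
      exact ⟨a, hf a⟩
  rw [hset, ← Set.image_univ, Set.ncard_image_of_injective _ hinj, Set.ncard_univ, D.card_cls]

/-- The points of an output block over a point `j` of `D₁` are the points of one block of `D₀`. -/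
theorem out_line {c : D.Bl₁ × D.Bl₂} {x : D.Pt₀} {j : D.Pt₁} (h : D.out (x, j) c) :
    ∃ ℓ, D.I₂ ℓ c.2 ∧ D.ψ c.1 (D.cls ℓ) = j ∧ ∀ y, D.out (y, j) c ↔ D.I₀ y ℓ := by
  obtain ⟨ℓ, h1, h2, h3⟩ := h
  refine ⟨ℓ, h1, h2, fun y => ⟨?_, fun hy => ⟨ℓ, h1, h2, hy⟩⟩⟩
  rintro ⟨ℓ', h1', h2', h3'⟩
  have : D.cls ℓ = D.cls ℓ' := D.ψ_injective c.1 (h2.trans h2'.symm)
  rw [D.transversal c.2 ℓ ℓ' h1 h1' this]
  exact h3'

end ConstructionInput

/-- If every two points lie on a common block (and there are at least two points), then the design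
does not arise from an input with `k₀ ≤ 1`. -/
theorem two_le_k₀ {P B : Type} {I : P → B → Prop} {v k l : ℕ} (h : IsTwoDesign I v k l)
    (hl : 1 ≤ l) (D : ConstructionInput) (h0 : 2 ≤ D.v₀) (h1 : 2 ≤ D.v₁)
    (e : P ≃ D.Pt₀ × D.Pt₁) (hb : ∀ b : B, ∃ c : D.Bl₁ × D.Bl₂, ∀ p, I p b ↔ D.out (e p) c) :
    2 ≤ D.k₀ := by
  classical
  have := D.design₀.finite_points
  have := D.design₁.isTwoDesign.finite_points
  have h0' : 1 < Nat.card D.Pt₀ := by rw [D.design₀.card_points]; omega
  have h1' : 1 < Nat.card D.Pt₁ := by rw [D.design₁.isTwoDesign.card_points]; omega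
  have := Fintype.ofFinite D.Pt₀
  have := Fintype.ofFinite D.Pt₁
  rw [Nat.card_eq_fintype_card, Fintype.one_lt_card_iff] at h0' h1'
  obtain ⟨x, y, hxy⟩ := h0'
  obtain ⟨j, _, _⟩ := h1'
  have hne : e.symm (x, j) ≠ e.symm (y, j) := by
    intro h'
    have := e.symm.injective h'
    simp only [Prod.mk.injEq] at this
    exact hxy this.1
  have hpair := h.card_pair _ _ hne
  have : {b : B | I (e.symm (x, j)) b ∧ I (e.symm (y, j)) b}.Nonempty := by
    by_contra hemp
    rw [Set.not_nonempty_iff_eq_empty] at hemp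
    rw [hemp, Set.ncard_empty] at hpair
    omega
  obtain ⟨b, hb1, hb2⟩ := this
  obtain ⟨c, hc⟩ := hb b
  rw [hc, Equiv.apply_symm_apply] at hb1 hb2
  obtain ⟨ℓ, h2, h3, h4⟩ := hb1
  obtain ⟨ℓ', h2', h3', h4'⟩ := hb2
  have hcls : D.cls ℓ = D.cls ℓ' := D.ψ_injective c.1 (by rw [h3, h3'])
  have hℓ := D.transversal c.2 ℓ ℓ' h2 h2' hcls
  subst hℓ
  rw [← D.design₀.card_block ℓ]
  have hsub : ({x, y} : Set D.Pt₀) ⊆ {p | D.I₀ p ℓ} := by
    intro z hz
    rcases hz with rfl | hz
    · exact h4
    · rw [Set.mem_singleton_iff] at hz; subst hz; exact h4'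
  calc 2 = ({x, y} : Set D.Pt₀).ncard := (Set.ncard_pair hxy).symm
    _ ≤ _ := Set.ncard_le_ncard hsub (Set.toFinite _)

end Pool.Agent.Designs
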