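import Mathlib
import Pool.Agent.Designs.ProductConstruction

set_option linter.all false
set_option maxRecDepth 100000
set_option synthInstance.maxHeartbeats 400000
set_option synthInstance.maxSize 10000

/-!
# A flag-transitive point-imprimitive biplane which does not arise from the construction
-/

namespace Pool.Agent.Designs.Biplane

open Pool.Agent.Designs

/-- The sixteen blocks: the translates of the difference set `{0,1,2,4,9,14}` of the group
`Z_2 x Z_8`, whose element `(a,c)` is written `8a+c`. -/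
def blk : Fin 16 → List (Fin 16) :=
  ![[0, 1, 2, 4, 9, 14], [1, 2, 3, 5, 10, 15], [2, 3, 4, 6, 8, 11], [3, 4, 5, 7, 9, 12],
    [0, 4, 5, 6, 10, 13], [1, 5, 6, 7, 11, 14], [0, 2, 6, 7, 12, 15], [0, 1, 3, 7, 8, 13],
    [1, 6, 8, 9, 10, 12], [2, 7, 9, 10, 11, 13], [0, 3, 10, 11, 12, 14], [1, 4, 11, 12, 13, 15],
    [2, 5, 8, 12, 13, 14], [3, 6, 9, 13, 14, 15], [4, 7, 8, 10, 14, 15], [0, 5, 8, 9, 11, 15]]

/-- Incidence of the biplane. -/
def Inc (p b : Fin 16) : Prop := p ∈ blk b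

instance : ∀ p b, Decidable (Inc p b) := fun p b => inferInstanceAs (Decidable (p ∈ blk b))

theorem card_block : ∀ b : Fin 16, (Finset.univ.filter fun p => Inc p b).card = 6 := by decide

theorem card_pair : ∀ p q : Fin 16, p ≠ q →
    (Finset.univ.filter fun b => Inc p b ∧ Inc q b).card = 2 := by decide

theorem card_inter : ∀ b b' : Fin 16, b ≠ b' →
    (Finset.univ.filter fun p => Inc p b ∧ Inc p b').card = 2 := by decide

theorem simple' : ∀ b b' : Fin 16, (∀ p, Inc p b ↔ Inc p b') → b = b' := by decide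

theorem isTwoDesign : IsTwoDesign Inc 16 6 2 where
  finite_points := inferInstance
  finite_blocks := inferInstance
  card_points := by simp
  card_block b := by
    rw [← card_block b, ← Set.ncard_coe_finset]; congr 1; ext p; simp
  card_pair p q h := by
    rw [← card_pair p q h, ← Set.ncard_coe_finset]; congr 1; ext p; simp

/-- translation by the group element `g` of `Z_2 x Z_8` -/
def tr (g p : Fin 16) : Fin 16 :=
  Fin.ofNat 16 (8 * ((g.val / 8 + p.val / 8) % 2) + (g.val + p.val) % 8)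

/-- inverse in `Z_2 x Z_8` -/
def neg (g : Fin 16) : Fin 16 :=
  Fin.ofNat 16 (8 * (g.val / 8) + (16 - g.val) % 8)

def trPerm (g : Fin 16) : Equiv.Perm (Fin 16) where
  toFun := tr g
  invFun := tr (neg g)
  left_inv := by revert g; decide
  right_inv := by revert g; decide

def hFun : Fin 16 → Fin 16 := ![1, 2, 4, 3, 9, 6, 12, 15, 5, 14, 8, 7, 13, 10, 0, 11]
def hInv : Fin 16 → Fin 16 := ![14, 0, 1, 3, 2, 8, 5, 11, 10, 4, 13, 15, 6, 12, 9, 7]

def hPerm : Equiv.Perm (Fin 16) where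
  toFun := hFun
  invFun := hInv
  left_inv := by decide
  right_inv := by decide

/-- the group: all permutations that permute the blocks and preserve the partition mod 4 -/
def G : Subgroup (Equiv.Perm (Fin 16)) where
  carrier := {g | (∃ τ : Equiv.Perm (Fin 16), ∀ b, MapsBlock Inc g b (τ b)) ∧
    ∀ x y : Fin 16, x.val % 4 = y.val % 4 ↔ (g x).val % 4 = (g y).val % 4}
  mul_mem' := by
    rintro g h ⟨⟨τ, hτ⟩, hg⟩ ⟨⟨ρ, hρ⟩, hh⟩
    refine ⟨⟨τ * ρ, fun b p => ?_⟩, fun x y => ?_⟩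
    · rw [hρ b p, hτ (ρ b) (h p)]; rfl
    · rw [hh x y, hg (h x) (h y)]; rfl
  one_mem' := ⟨⟨1, fun b p => Iff.rfl⟩, fun x y => Iff.rfl⟩
  inv_mem' := by
    rintro g ⟨⟨τ, hτ⟩, hg⟩
    refine ⟨⟨τ⁻¹, fun b p => ?_⟩, fun x y => ?_⟩
    · have h1 := hτ (τ⁻¹ b) (g⁻¹ p)
      have h2 : g (g⁻¹ p) = p := Equiv.apply_symm_apply g p
      have h3 : τ (τ⁻¹ b) = b := Equiv.apply_symm_apply τ b
      rw [h2, h3] at h1
      exact h1.symm
    · have h1 := hg (g⁻¹ x) (g⁻¹ y)
      have h2 : g (g⁻¹ x) = x := Equiv.apply_symm_apply g x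
      have h3 : g (g⁻¹ y) = y := Equiv.apply_symm_apply g y
      rw [h2, h3] at h1
      exact h1.symm

theorem trPerm_mem (g : Fin 16) : trPerm g ∈ G := by
  refine ⟨⟨trPerm g, ?_⟩, ?_⟩
  · revert g; unfold MapsBlock; decide
  · revert g; decide

def hBlk : Equiv.Perm (Fin 16) where
  toFun := ![0, 2, 3, 13, 8, 6, 11, 1, 12, 14, 7, 9, 4, 10, 15, 5]
  invFun := ![0, 7, 1, 2, 12, 15, 5, 10, 4, 11, 13, 6, 8, 3, 9, 14]
  left_inv := by decide
  right_inv := by decide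

theorem hPerm_mem : hPerm ∈ G := by
  refine ⟨⟨hBlk, ?_⟩, ?_⟩
  · unfold MapsBlock; decide
  · decide

theorem isAutomorphismGroup : IsAutomorphismGroup Inc G := by
  rintro g ⟨⟨τ, hτ⟩, _⟩ b
  exact ⟨τ b, hτ b⟩

theorem imprimitive : IsPointImprimitive G := by
  refine ⟨⟨fun x y => x.val % 4 = y.val % 4, ⟨fun _ => rfl, fun h => h.symm,
    fun h h' => h.trans h'⟩⟩, ⟨0, 4, by decide, rfl⟩, ⟨0, 1, ?_⟩, ?_⟩
  · show ¬ ((0 : Fin 16).val % 4 = (1 : Fin 16).val % 4)
    decide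
  · rintro g ⟨_, hg⟩ x y h
    exact (hg x y).1 h

theorem to_zero' : ∀ b p : Fin 16, Inc p b → ∃ i : Fin 6, (hFun^[i.val]) (tr (neg b) p) = 0 ∧
    ∀ q, Inc q b ↔ Inc ((hFun^[i.val]) (tr (neg b) q)) 0 := by decide

theorem to_zero (b p : Fin 16) (h : Inc p b) : ∃ g ∈ G, g p = 0 ∧ MapsBlock Inc g b 0 := by
  obtain ⟨i, h1, h2⟩ := to_zero' b p h
  refine ⟨hPerm ^ i.val * trPerm (neg b), mul_mem (pow_mem hPerm_mem _) (trPerm_mem _), ?_, ?_⟩
  · rw [Equiv.Perm.mul_apply, ← Equiv.Perm.iterate_eq_pow]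
    exact h1
  · intro q
    rw [Equiv.Perm.mul_apply, ← Equiv.Perm.iterate_eq_pow]
    exact h2 q

theorem flagTransitive : IsFlagTransitive Inc G := by
  intro p p' b b' h h'
  obtain ⟨g, hg, h1, h2⟩ := to_zero b p h
  obtain ⟨g', hg', h1', h2'⟩ := to_zero b' p' h'
  refine ⟨g'⁻¹ * g, mul_mem (inv_mem hg') hg, ?_, ?_⟩
  · rw [Equiv.Perm.mul_apply, h1, ← h1']
    exact Equiv.symm_apply_apply g' p'
  · intro q
    rw [Equiv.Perm.mul_apply, h2 q]
    have h3 := h2' (g'⁻¹ (g q))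
    have h4 : g' (g'⁻¹ (g q)) = g q := Equiv.apply_symm_apply g' _
    rw [h4] at h3
    exact h3.symm

/-- the 4-sets of points which meet every block in 0 or 2 points -/
def SL : List (List (Fin 16)) :=
  [[0, 1, 5, 12], [0, 2, 8, 10], [0, 3, 4, 15], [0, 4, 7, 11], [0, 4, 8, 12], [0, 6, 8, 14],
   [0, 9, 12, 13], [1, 2, 6, 13], [1, 3, 9, 11], [1, 4, 5, 8], [1, 5, 9, 13], [1, 7, 9, 15],
   [1, 10, 13, 14], [2, 3, 7, 14], [2, 4, 10, 12], [2, 5, 6, 9], [2, 6, 10, 14], [2, 11, 14, 15],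
   [3, 5, 11, 13], [3, 6, 7, 10], [3, 7, 11, 15], [3, 8, 12, 15], [4, 6, 12, 14], [4, 8, 9, 13],
   [5, 7, 13, 15], [5, 9, 10, 14], [6, 10, 11, 15], [7, 8, 11, 12]]

def ind (x k : Fin 16) : ℕ := if Inc x k then 1 else 0

theorem enum4 : ∀ a b : Fin 16, a < b → ∀ c, b < c → ∀ d, c < d →
    (∀ k, ind a k + ind b k + ind c k + ind d k = 0 ∨ ind a k + ind b k + ind c k + ind d k = 2) →
    [a, b, c, d] ∈ SL := by
  decide +kernel

def star (T : List (List (Fin 16))) : Prop :=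
  ∀ k k' : Fin 16, k ≠ k' → (∃ t ∈ T, (∀ x ∈ t, ¬ Inc x k ∧ ¬ Inc x k')) →
    ∃ t ∈ T, ∀ x, Inc x k → Inc x k' → x ∈ t

instance (T : List (List (Fin 16))) : Decidable (star T) := by unfold star; infer_instance

theorem key : ∀ t0 ∈ SL, 0 ∈ t0 → ∀ t1 ∈ SL, (∀ x ∈ t0, x ∉ t1) → ∀ t2 ∈ SL, (∀ x ∈ t0, x ∉ t2) →
    (∀ x ∈ t1, x ∉ t2) → ∀ t3 ∈ SL, (∀ x ∈ t0, x ∉ t3) → (∀ x ∈ t1, x ∉ t3) → (∀ x ∈ t2, x ∉ t3) →
    star [t0, t1, t2, t3] → ∀ t ∈ [t0, t1, t2, t3], ∀ x ∈ t, ∀ y ∈ t, x.val % 4 = y.val % 4 := by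
  decide +kernel

theorem odd_transversal : ∀ a0 a1 a2 a3 : Fin 4,
    ¬ (∀ i j : Fin 4, (∃ b, ∀ u : Fin 4, u ≠ i →
        Inc (Fin.ofNat 16 (4 * ((![a0, a1, a2, a3] : Fin 4 → Fin 4) u).val + u.val)) b) →
      (∃ b, ∀ u : Fin 4, u ≠ j →
        Inc (Fin.ofNat 16 (4 * ((![a0, a1, a2, a3] : Fin 4 → Fin 4) u).val + u.val)) b)) := by
  decide +kernel

theorem sep : ∀ p q : Fin 16, p ≠ q → ∃ b, Inc p b ∧ ¬ Inc q b := by decide

theorem sorted4 (F : Finset (Fin 16)) (h : F.card = 4) :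
    ∃ a b c d : Fin 16, a < b ∧ b < c ∧ c < d ∧ F = {a, b, c, d} := by
  let f := F.orderEmbOfFin h
  refine ⟨f 0, f 1, f 2, f 3, f.strictMono (by decide), f.strictMono (by decide),
    f.strictMono (by decide), ?_⟩
  have h1 := Finset.range_orderEmbOfFin F h
  ext x
  rw [← Finset.mem_coe, ← h1]
  simp only [Set.mem_range, Finset.mem_insert, Finset.mem_singleton]
  constructor
  · rintro ⟨i, rfl⟩
    fin_cases i
    · left; rfl
    · right; left; rfl
    · right; right; left; rfl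
    · right; right; right; rfl
  · rintro (h | h | h | h)
    · exact ⟨0, h.symm⟩
    · exact ⟨1, h.symm⟩
    · exact ⟨2, h.symm⟩
    · exact ⟨3, h.symm⟩

theorem ind_sum (F : Finset (Fin 16)) (a b c d : Fin 16) (h1 : a < b) (h2 : b < c) (h3 : c < d)
    (hF : F = {a, b, c, d}) (k : Fin 16) :
    (F.filter fun x => Inc x k).card = ind a k + ind b k + ind c k + ind d k := by
  subst hF
  rw [Finset.card_filter]
  rw [Finset.sum_insert, Finset.sum_insert, Finset.sum_insert, Finset.sum_singleton]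
  · unfold ind; ring
  · simp only [Finset.mem_singleton]; exact h3.ne
  · simp only [Finset.mem_insert, Finset.mem_singleton]
    rintro (h | h)
    · exact h2.ne h
    · exact (h2.trans h3).ne h
  · simp only [Finset.mem_insert, Finset.mem_singleton]
    rintro (h | h | h)
    · exact h1.ne h
    · exact (h1.trans h2).ne h
    · exact (h1.trans (h2.trans h3)).ne h

/-- every class (fiber of a map `κ`) with four points, meeting every block in 0 or 2 points, is in
the list -/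
theorem fiber_mem {J : Type} [DecidableEq J] (κ : Fin 16 → J) (j : J)
    (h4 : (Finset.univ.filter fun x => κ x = j).card = 4)
    (h02 : ∀ k, (Finset.univ.filter fun x => κ x = j ∧ Inc x k).card = 0 ∨
      (Finset.univ.filter fun x => κ x = j ∧ Inc x k).card = 2) :
    ∃ t ∈ SL, ∀ x, x ∈ t ↔ κ x = j := by
  obtain ⟨a, b, c, d, hab, hbc, hcd, hF⟩ := sorted4 _ h4
  refine ⟨[a, b, c, d], enum4 a b hab c hbc d hcd ?_, ?_⟩
  · intro k
    have h := h02 k
    rw [← Finset.filter_filter, ind_sum _ a b c d hab hbc hcd hF k] at h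
    exact h
  · intro x
    have : x ∈ Finset.univ.filter (fun x => κ x = j) ↔ x ∈ ({a, b, c, d} : Finset (Fin 16)) := by
      rw [hF]
    simp only [Finset.mem_filter, Finset.mem_univ, true_and, Finset.mem_insert,
      Finset.mem_singleton] at this
    rw [this]
    simp

end Pool.Agent.Designs.Biplane
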