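import Mathlib
import Pool.Agent.Designs.Biplane

set_option linter.all false
set_option maxRecDepth 100000

namespace Pool.Agent.Designs.Biplane

open Pool.Agent.Designs

theorem not_arises : ¬ ArisesFromConstruction Inc := by
  classical
  rintro ⟨D, h0, h1, e, hb, hc⟩
  have hk0 : 2 ≤ D.k₀ := two_le_k₀ isTwoDesign (by norm_num) D h0 h1 e hb
  have := D.design₀.finite_points
  have := D.design₀.finite_blocks
  have := D.design₁.isTwoDesign.finite_points
  have := D.design₁.isTwoDesign.finite_blocks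
  have := D.finite_cls
  have := Fintype.ofFinite D.Pt₀
  have := Fintype.ofFinite D.Bl₀
  have := Fintype.ofFinite D.Pt₁
  have := Fintype.ofFinite D.Bl₁
  have := Fintype.ofFinite D.Cls
  -- numerical data
  have hprod : D.v₀ * D.v₁ = 16 := by
    have h := Nat.card_congr e
    rw [Nat.card_prod, D.design₀.card_points, D.design₁.isTwoDesign.card_points] at h
    rw [← h]; simp
  have hk : D.k₀ * D.k₂ = 6 := by
    obtain ⟨c, hc0⟩ := hb 0
    have h := D.ncard_out c
    have h2 : {p | D.out p c} = e '' {p | Inc p 0} := by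
      ext p
      simp only [Set.mem_setOf_eq, Set.mem_image]
      constructor
      · intro hp
        exact ⟨e.symm p, by rw [hc0]; simpa using hp, by simp⟩
      · rintro ⟨q, hq, rfl⟩
        exact (hc0 q).1 hq
    rw [h2, Set.ncard_image_of_injective _ e.injective, isTwoDesign.card_block 0] at h
    exact h.symm
  have hk2 : 1 ≤ D.k₂ := by
    rcases Nat.eq_zero_or_pos D.k₂ with h | h
    · rw [h] at hk; omega
    · exact h
  have hrv : D.r ≤ D.v₁ := D.r_le (by omega)
  have hk2r := D.k₂_le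
  have hCls : Nonempty D.Cls := by
    by_contra hemp
    rw [not_nonempty_iff] at hemp
    have := D.card_cls
    rw [Nat.card_of_isEmpty] at this
    omega
  obtain ⟨a₀⟩ := hCls
  have hv0 := D.v₀_eq a₀
  have hk0' : D.k₀ = 2 := by
    have hd1 : D.k₀ ∣ 6 := ⟨_, hk.symm⟩
    have hd2 : D.k₀ ∣ 16 := by
      rw [← hprod, hv0]
      exact ⟨D.s * D.v₁, by ring⟩
    have hd3 : D.k₀ ∣ 2 := by
      have := Nat.dvd_gcd hd1 hd2
      simpa using this
    have := Nat.le_of_dvd (by norm_num) hd3
    omega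
  have hk2' : D.k₂ = 3 := by rw [hk0'] at hk; omega
  have hP0 : Nat.card D.Pt₀ = D.v₀ := D.design₀.card_points
  have hP1 : Nat.card D.Pt₁ = D.v₁ := D.design₁.isTwoDesign.card_points
  -- there is a point of D₁ and two points of D₀
  have hPt1 : Nonempty D.Pt₁ := by
    by_contra hemp
    rw [not_nonempty_iff] at hemp
    rw [Nat.card_of_isEmpty] at hP1
    omega
  have hPt0 : Nonempty D.Pt₀ := by
    by_contra hemp
    rw [not_nonempty_iff] at hemp
    rw [Nat.card_of_isEmpty] at hP0
    omega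
  obtain ⟨x₀⟩ := hPt0
  have hv0' : D.v₀ ≠ 2 := by
    intro h2
    obtain ⟨j⟩ := hPt1
    have hcard : 1 < Nat.card D.Pt₀ := by omega
    rw [Nat.card_eq_fintype_card, Fintype.one_lt_card_iff] at hcard
    obtain ⟨x, y, hxy⟩ := hcard
    have hne : e.symm (x, j) ≠ e.symm (y, j) := by
      intro h'
      have := e.symm.injective h'
      rw [Prod.mk.injEq] at this
      exact hxy this.1
    obtain ⟨b, hb1, hb2⟩ := sep _ _ hne
    obtain ⟨c, hcb⟩ := hb b
    rw [hcb, Equiv.apply_symm_apply] at hb1 hb2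
    obtain ⟨ℓ, hl1, hl2, hl3⟩ := D.out_line hb1
    apply hb2
    rw [hl3]
    have h3 : {p | D.I₀ p ℓ} = Set.univ := by
      rw [Set.eq_univ_iff_ncard, D.design₀.card_block, hP0, hk0', h2]
    have : y ∈ {p | D.I₀ p ℓ} := by rw [h3]; trivial
    exact this
  have hv : D.v₀ = 4 ∧ D.v₁ = 4 := by
    have h3 : 3 ≤ D.v₁ := by omega
    have h4 : D.v₀ ≤ 5 := by
      by_contra h
      have : 6 * 3 ≤ D.v₀ * D.v₁ := Nat.mul_le_mul (by omega) h3
      omega
    have : D.v₀ = 3 ∨ D.v₀ = 4 ∨ D.v₀ = 5 := by omega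
    rcases this with h | h | h <;> rw [h] at hprod <;> omega
  obtain ⟨hv0e, hv1e⟩ := hv
  have hr : D.r = 3 := by
    have h := D.r_mul x₀
    rw [hk0', hv0e] at h
    omega
  have hk2r' : D.k₂ = D.r := by rw [hk2', hr]
  -- uniqueness and existence of the block of D₁ missing a point
  have hB1 : Nat.card D.Bl₁ = 4 := by rw [D.design₁.card_blocks, hv1e]
  have hmiss_card : ∀ j : D.Pt₁, {β | j ∉ Set.range (D.ψ β)}.ncard = 1 := by
    intro j
    have h := Set.ncard_add_ncard_compl {β | j ∈ Set.range (D.ψ β)}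
    rw [D.ncard_containing j, hr, hB1] at h
    have h2 : {β | j ∈ Set.range (D.ψ β)}ᶜ = {β | j ∉ Set.range (D.ψ β)} := rfl
    rw [h2] at h
    omega
  have hmiss_unique : ∀ (j : D.Pt₁) (β β' : D.Bl₁), j ∉ Set.range (D.ψ β) →
      j ∉ Set.range (D.ψ β') → β = β' := by
    intro j β β' h h'
    obtain ⟨b, hb⟩ := Set.ncard_eq_one.1 (hmiss_card j)
    have h1 : β ∈ {β | j ∉ Set.range (D.ψ β)} := h
    have h2 : β' ∈ {β | j ∉ Set.range (D.ψ β)} := h'
    rw [hb, Set.mem_singleton_iff] at h1 h2
    rw [h1, h2]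
  have hmiss_ex : ∀ j : D.Pt₁, ∃ β, j ∉ Set.range (D.ψ β) := by
    intro j
    obtain ⟨b, hb⟩ := Set.ncard_eq_one.1 (hmiss_card j)
    refine ⟨b, ?_⟩
    have : b ∈ {β | j ∉ Set.range (D.ψ β)} := by rw [hb]; rfl
    exact this
  -- classes of points
  set κ : Fin 16 → D.Pt₁ := fun p => (e p).2 with hκ
  have hfib : ∀ j, (Finset.univ.filter fun x => κ x = j).card = 4 := by
    intro j
    have : (Finset.univ.filter fun x => κ x = j) =
        (Finset.univ : Finset D.Pt₀).image fun x => e.symm (x, j) := by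
      ext p
      simp only [Finset.mem_filter, Finset.mem_univ, true_and, Finset.mem_image, hκ]
      constructor
      · rintro rfl
        exact ⟨(e p).1, by simp⟩
      · rintro ⟨x, rfl⟩
        simp
    rw [this, Finset.card_image_of_injective, Finset.card_univ, ← Nat.card_eq_fintype_card, hP0,
      hv0e]
    intro x y hxy
    have := e.symm.injective hxy
    rw [Prod.mk.injEq] at this
    exact this.1
  have h02 : ∀ j k, (Finset.univ.filter fun x => κ x = j ∧ Inc x k).card = 0 ∨
      (Finset.univ.filter fun x => κ x = j ∧ Inc x k).card = 2 := by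
    intro j k
    obtain ⟨c, hck⟩ := hb k
    by_cases hex : ∃ x, D.out (x, j) c
    · right
      obtain ⟨x, hx⟩ := hex
      obtain ⟨ℓ, hl1, hl2, hl3⟩ := D.out_line hx
      have : (Finset.univ.filter fun x => κ x = j ∧ Inc x k) =
          (Finset.univ.filter fun y => D.I₀ y ℓ).image fun x => e.symm (x, j) := by
        ext p
        simp only [Finset.mem_filter, Finset.mem_univ, true_and, Finset.mem_image, hκ]
        constructor
        · rintro ⟨rfl, hp⟩
          refine ⟨(e p).1, ?_, by simp⟩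
          rw [← hl3]
          exact (hck p).1 hp
        · rintro ⟨x, hx, rfl⟩
          refine ⟨by simp, ?_⟩
          rw [hck, Equiv.apply_symm_apply, hl3]
          exact hx
      rw [this, Finset.card_image_of_injective, ← hk0', ← D.design₀.card_block ℓ,
        ← Set.ncard_coe_finset]
      · congr 1; ext; simp
      · intro x y hxy
        have := e.symm.injective hxy
        rw [Prod.mk.injEq] at this
        exact this.1
    · left
      rw [Finset.card_eq_zero, Finset.filter_eq_empty_iff]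
      rintro p - ⟨h1, h2⟩
      apply hex
      refine ⟨(e p).1, ?_⟩
      rw [← h1]
      exact (hck p).1 h2
  -- the classes are in the list
  have hlist : ∀ j, ∃ t ∈ SL, ∀ x, x ∈ t ↔ κ x = j := fun j => fiber_mem κ j (hfib j) (h02 j)
  choose t htSL ht using hlist
  -- an enumeration of the points of D₁ starting with the class of 0
  have hcard1 : Fintype.card D.Pt₁ = 4 := by rw [← Nat.card_eq_fintype_card, hP1, hv1e]
  let f₁ : Fin 4 ≃ D.Pt₁ := (Fintype.equivFinOfCardEq hcard1).symm
  let f : Fin 4 ≃ D.Pt₁ := f₁.trans (Equiv.swap (f₁ 0) (κ 0))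
  have hf0 : f 0 = κ 0 := by simp [f]
  have hdisj : ∀ i j : Fin 4, i ≠ j → ∀ x ∈ t (f i), x ∉ t (f j) := by
    intro i j hij x hx hx'
    rw [ht] at hx hx'
    exact hij (f.injective (hx.symm.trans hx'))
  -- two blocks missing the same class meet inside one class
  have hstar : star [t (f 0), t (f 1), t (f 2), t (f 3)] := by
    intro k k' hkk' hex
    have hmem : ∀ l : List (Fin 16), l ∈ [t (f 0), t (f 1), t (f 2), t (f 3)] ↔
        ∃ i : Fin 4, l = t (f i) := by
      intro l
      simp only [List.mem_cons, List.not_mem_nil, or_false]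
      constructor
      · rintro (h | h | h | h)
        · exact ⟨0, h⟩
        · exact ⟨1, h⟩
        · exact ⟨2, h⟩
        · exact ⟨3, h⟩
      · rintro ⟨i, h⟩
        fin_cases i
        · left; exact h
        · right; left; exact h
        · right; right; left; exact h
        · right; right; right; exact h
    obtain ⟨l, hl, hl2⟩ := hex
    obtain ⟨i, rfl⟩ := (hmem l).1 hl
    obtain ⟨c, hck⟩ := hb k
    obtain ⟨c', hck'⟩ := hb k'
    -- both blocks come from the same β
    have hno : ∀ (k : Fin 16) (c : D.Bl₁ × D.Bl₂), (∀ p, Inc p k ↔ D.out (e p) c) →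
        (∀ x ∈ t (f i), ¬ Inc x k) → f i ∉ Set.range (D.ψ c.1) := by
      rintro k c hck hx ⟨a, ha⟩
      obtain ⟨ℓ, hl1, hl2⟩ := D.meets_all hk2r' c.2 a
      have hne : {p | D.I₀ p ℓ}.Nonempty := by
        rw [← Set.ncard_pos (Set.toFinite _), D.design₀.card_block ℓ]
        omega
      obtain ⟨y, hy⟩ := hne
      have hout : D.out (y, f i) c := ⟨ℓ, hl1, by rw [hl2]; exact ha, hy⟩
      refine hx (e.symm (y, f i)) ?_ ?_
      · rw [ht]; simp [hκ]
      · rw [hck]; simpa using hout
    have hβ : c.1 = c'.1 := hmiss_unique (f i) _ _ (hno k c hck fun x hx => (hl2 x hx).1)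
      (hno k' c' hck' fun x hx => (hl2 x hx).2)
    -- common points
    have hcomm := card_inter k k' hkk'
    have hcommne : (Finset.univ.filter fun p => Inc p k ∧ Inc p k').Nonempty := by
      rw [← Finset.card_pos, hcomm]; norm_num
    obtain ⟨p, hp⟩ := hcommne
    simp only [Finset.mem_filter, Finset.mem_univ, true_and] at hp
    refine ⟨t (κ p), (hmem _).2 ⟨f.symm (κ p), by simp⟩, ?_⟩
    intro q hq hq'
    rw [ht]
    by_contra hne
    -- a third common point
    have hline : ∃ ℓ, (∀ y, D.out (y, κ p) c ↔ D.I₀ y ℓ) ∧ (∀ y, D.out (y, κ p) c' ↔ D.I₀ y ℓ) := by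
      have hp1 : D.out ((e p).1, κ p) c := (hck p).1 hp.1
      have hp2 : D.out ((e p).1, κ p) c' := (hck' p).1 hp.2
      obtain ⟨ℓ, hl1, hl2, hl3⟩ := D.out_line hp1
      obtain ⟨ℓ', hl1', hl2', hl3'⟩ := D.out_line hp2
      refine ⟨ℓ, hl3, ?_⟩
      have hcls : D.cls ℓ = D.cls ℓ' := by
        apply D.ψ_injective c.1
        rw [hl2, hβ, hl2']
      have : ℓ = ℓ' := (D.resolution (D.cls ℓ') (e p).1).unique
        ⟨hcls, (hl3 _).1 hp1⟩ ⟨rfl, (hl3' _).1 hp2⟩
      rw [this]
      exact hl3'
    obtain ⟨ℓ, hℓ, hℓ'⟩ := hline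
    have hx0 : D.I₀ (e p).1 ℓ := (hℓ _).1 ((hck p).1 hp.1)
    have h2 : 1 < {y | D.I₀ y ℓ}.ncard := by rw [D.design₀.card_block ℓ]; omega
    obtain ⟨y, hy, hyne⟩ := Set.exists_ne_of_one_lt_ncard h2 (e p).1
    have hp'1 : Inc (e.symm (y, κ p)) k := by
      rw [hck, Equiv.apply_symm_apply, hℓ]; exact hy
    have hp'2 : Inc (e.symm (y, κ p)) k' := by
      rw [hck', Equiv.apply_symm_apply, hℓ']; exact hy
    have hsub : ({p, e.symm (y, κ p), q} : Finset (Fin 16)) ⊆
        Finset.univ.filter fun p => Inc p k ∧ Inc p k' := by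
      intro z hz
      simp only [Finset.mem_insert, Finset.mem_singleton] at hz
      simp only [Finset.mem_filter, Finset.mem_univ, true_and]
      rcases hz with rfl | rfl | rfl
      · exact hp
      · exact ⟨hp'1, hp'2⟩
      · exact ⟨hq, hq'⟩
    have hc3 : ({p, e.symm (y, κ p), q} : Finset (Fin 16)).card = 3 := by
      rw [Finset.card_eq_three]
      refine ⟨p, e.symm (y, κ p), q, ?_, ?_, ?_, rfl⟩
      · intro h
        apply hyne
        have := congrArg (fun z => (e z).1) h
        simpa using this.symm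
      · intro h
        exact hne (by rw [h])
      · intro h
        apply hne
        rw [← h]
        simp [hκ]
    have := Finset.card_le_card hsub
    rw [hc3, hcomm] at this
    omega
  have hkey := key (t (f 0)) (htSL _) ((ht _ _).2 hf0.symm) (t (f 1)) (htSL _)
    (hdisj 0 1 (by decide)) (t (f 2)) (htSL _) (hdisj 0 2 (by decide)) (hdisj 1 2 (by decide))
    (t (f 3)) (htSL _) (hdisj 0 3 (by decide)) (hdisj 1 3 (by decide)) (hdisj 2 3 (by decide)) hstar
  have hmod1 : ∀ x y : Fin 16, κ x = κ y → x.val % 4 = y.val % 4 := by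
    intro x y hxy
    have hmem : t (κ x) ∈ [t (f 0), t (f 1), t (f 2), t (f 3)] := by
      obtain ⟨i, hi⟩ := f.surjective (κ x)
      rw [← hi]
      fin_cases i <;> simp
    exact hkey _ hmem x ((ht _ _).2 rfl) y ((ht _ _).2 hxy.symm)
  have hmod2 : ∀ x y : Fin 16, x.val % 4 = y.val % 4 → κ x = κ y := by
    intro x y hxy
    have hsub : (Finset.univ.filter fun z => κ z = κ x) ⊆
        Finset.univ.filter fun z : Fin 16 => z.val % 4 = x.val % 4 := by
      intro z hz
      simp only [Finset.mem_filter, Finset.mem_univ, true_and] at hz ⊢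
      exact hmod1 z x hz
    have hc4 : ∀ x : Fin 16, (Finset.univ.filter fun z : Fin 16 => z.val % 4 = x.val % 4).card = 4 := by
      decide
    have heq := Finset.eq_of_subset_of_card_le hsub (by rw [hc4, hfib])
    have : y ∈ Finset.univ.filter fun z : Fin 16 => z.val % 4 = x.val % 4 := by
      simp [hxy]
    rw [← heq] at this
    simp only [Finset.mem_filter, Finset.mem_univ, true_and] at this
    exact this.symm
  -- the constant transversal over x₀
  have hu16 : ∀ u : Fin 4, u.val < 16 := fun u => lt_of_lt_of_le u.isLt (by norm_num)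
  let w : Fin 4 → Fin 16 := fun u => ⟨u.val, hu16 u⟩
  let jj : Fin 4 → D.Pt₁ := fun u => κ (w u)
  have hjinj : Function.Injective jj := by
    intro u v h
    have := hmod1 _ _ h
    ext
    have h1 := u.isLt
    have h2 := v.isLt
    simp only [w] at this
    omega
  let P : Fin 4 → Fin 16 := fun u => e.symm (x₀, jj u)
  have hκP : ∀ u, κ (P u) = jj u := fun u => by simp [P, hκ]
  have hP4 : ∀ u, (P u).val % 4 = u.val := by
    intro u
    have := hmod1 (P u) (w u) (hκP u)
    rw [this]
    show u.val % 4 = u.val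
    exact Nat.mod_eq_of_lt u.isLt
  let a : Fin 4 → Fin 4 := fun u => ⟨(P u).val / 4, by have := (P u).isLt; omega⟩
  have hPa : ∀ u, Fin.ofNat 16 (4 * (a u).val + u.val) = P u := by
    intro u
    ext
    have h1 := hP4 u
    have h2 := (P u).isLt
    simp only [Fin.ofNat, a]
    omega
  have ha : ∀ u, (![a 0, a 1, a 2, a 3] : Fin 4 → Fin 4) u = a u := by
    intro u; fin_cases u <;> rfl
  apply odd_transversal (a 0) (a 1) (a 2) (a 3)
  intro i i' hex
  simp only [ha, hPa] at hex ⊢
  obtain ⟨b, hbP⟩ := hex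
  obtain ⟨c, hcb⟩ := hb b
  -- all lines of γ pass through x₀
  have hall : ∀ ℓ, D.I₂ ℓ c.2 → D.I₀ x₀ ℓ := by
    have hex : ∀ u : {u : Fin 4 // u ≠ i}, ∃ ℓ, D.I₂ ℓ c.2 ∧ D.ψ c.1 (D.cls ℓ) = jj u ∧
        D.I₀ x₀ ℓ := by
      rintro ⟨u, hu⟩
      have := (hcb _).1 (hbP u hu)
      simp only [P, Equiv.apply_symm_apply] at this
      exact this
    choose g hg1 hg2 hg3 using hex
    have hginj : Function.Injective g := by
      intro u v h
      have h1 := hg2 u
      rw [h, hg2 v] at h1
      exact Subtype.ext (hjinj h1.symm)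
    have himg : Set.range g = {ℓ | D.I₂ ℓ c.2} := by
      apply Set.eq_of_subset_of_ncard_le
      · rintro _ ⟨u, rfl⟩
        exact hg1 u
      · rw [D.card_block₂, hk2', ← Set.image_univ, Set.ncard_image_of_injective _ hginj,
          Set.ncard_univ, Nat.card_eq_fintype_card]
        simp
      · exact Set.toFinite _
    intro ℓ hℓ
    have : ℓ ∈ Set.range g := by rw [himg]; exact hℓ
    obtain ⟨u, rfl⟩ := this
    exact hg3 u
  obtain ⟨β', hβ'⟩ := hmiss_ex (jj i')
  obtain ⟨b', hb'⟩ := hc (β', c.2)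
  refine ⟨b', fun u hu => ?_⟩
  rw [hb']
  simp only [P, Equiv.apply_symm_apply]
  -- jj u is in the range of ψ β'
  have hrange : jj u ∈ Set.range (D.ψ β') := by
    by_contra hnot
    have hsub : Set.range (D.ψ β') ⊆ ({jj u, jj i'} : Set D.Pt₁)ᶜ := by
      rintro _ ⟨a, rfl⟩ hmem
      rcases hmem with h | h
      · exact hnot ⟨a, h⟩
      · exact hβ' ⟨a, h⟩
    have h1 := Set.ncard_le_ncard hsub (Set.toFinite _)
    have h2 := Set.ncard_add_ncard_compl ({jj u, jj i'} : Set D.Pt₁)
    rw [Set.ncard_pair (fun h => hu (hjinj h)), hP1, hv1e] at h2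
    rw [← Set.image_univ, Set.ncard_image_of_injective _ (D.ψ_injective β'), Set.ncard_univ,
      D.card_cls, hr] at h1
    omega
  obtain ⟨α, hα⟩ := hrange
  obtain ⟨ℓ, hl1, hl2⟩ := D.meets_all hk2r' c.2 α
  exact ⟨ℓ, hl1, by rw [hl2]; exact hα, hall ℓ hl1⟩

end Pool.Agent.Designs.Biplane
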