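import Mathlib
import Pool.Agent.Designs.ProductConstruction

set_option linter.all false

/-!
Sanity check for the definitions: the construction has an input with `v₀ = v₁ = 4` built from the
affine plane of order 2, so `ConstructionInput` is not vacuous.
-/

namespace Pool.Agent.Designs.Sanity

open Pool.Agent.Designs

def line : Fin 6 → List (Fin 4) := ![[0, 1], [2, 3], [0, 2], [1, 3], [0, 3], [1, 2]]

def cl : Fin 6 → Fin 3 := ![0, 0, 1, 1, 2, 2]

def td : Fin 4 → List (Fin 6) := ![[0, 2, 4], [0, 3, 5], [1, 2, 5], [1, 3, 4]]

theorem t {α : Type} [Fintype α] (p : α → Prop) [DecidablePred p] (n : ℕ)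
    (h : (Finset.univ.filter p).card = n) : {x | p x}.ncard = n := by
  rw [← h, ← Set.ncard_coe_finset]; congr 1; ext; simp

def input : ConstructionInput where
  Pt₀ := Fin 4
  Bl₀ := Fin 6
  Cls := Fin 3
  Pt₁ := Fin 4
  Bl₁ := Fin 4
  Bl₂ := Fin 4
  v₀ := 4
  k₀ := 2
  l₀ := 1
  s := 2
  r := 3
  v₁ := 4
  l₁ := 2
  k₂ := 3
  l₂ := 1
  I₀ x ℓ := x ∈ line ℓ
  design₀ :=
    { finite_points := inferInstance
      finite_blocks := inferInstance
      card_points := by simp
      card_block := by intro b; apply t; revert b; decide
      card_pair := by intro p q h; apply t; revert p q; decide }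
  cls := cl
  finite_cls := inferInstance
  card_cls := by simp
  card_class := by intro b; apply t; revert b; decide
  resolution := by
    intro c x
    have : ∀ c x, ∃ ℓ, (cl ℓ = c ∧ x ∈ line ℓ) ∧ ∀ ℓ', cl ℓ' = c ∧ x ∈ line ℓ' → ℓ' = ℓ := by decide
    exact this c x
  I₁ i β := i ≠ β
  design₁ :=
    { isTwoDesign :=
      { finite_points := inferInstance
        finite_blocks := inferInstance
        card_points := by simp
        card_block := by intro b; apply t; revert b; decide
        card_pair := by intro p q h; apply t; revert p q; decide }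
      card_blocks := by simp }
  ψ β c := β + Fin.castSucc c + 1
  ψ_injective := by decide
  ψ_range := by
    intro β; ext i
    simp only [Set.mem_range, Set.mem_setOf_eq]
    revert β i; decide
  ψ_unique := by
    intro c x
    have : ∀ (c : Fin 3) (x : Fin 4), ∃ β : Fin 4, (β + Fin.castSucc c + 1 = x) ∧
      ∀ β' : Fin 4, β' + Fin.castSucc c + 1 = x → β' = β := by decide
    exact this c x
  I₂ ℓ γ := ℓ ∈ td γ
  finite_blocks₂ := inferInstance
  card_block₂ := by intro b; apply t; revert b; decide
  k₂_le := le_refl _
  transversal := by decide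
  card_pair₂ := by intro p q h; apply t; revert p q; decide

end Pool.Agent.Designs.Sanity
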